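import Pool.Agent.Q99.ET.Arb4
import Pool.Agent.Q99.ET.Vas

/-!
# Vassiliev invariants of bounded order and highly twisted arborescent knots

`Γ : Ribbon k` is a connected plane graph with `k` edges (`Γ.Planar`, a ribbon graph of genus `0`), `B` a
set of edges. `mix Γ B` is the diagram without crossings which has one open box at every edge of `Γ`, and
`(mix Γ B).fill n` is the link diagram with a row of `|n e|` crossings, of the kind given by the sign of
`n e`, in the box of `e`: across the edge `e` if `e ∉ B`, along the edge `e` if `e ∈ B`. Its Tait graph is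
the graph obtained from `Γ` by replacing every edge `e ∉ B` by `|n e|` parallel edges and every edge `e ∈ B`
by a path of `|n e|` edges.

`gr Γ X` is the rank of the set `X` of edges: the number of vertices of `Γ` minus the number `Γ.comps X` of
components of the spanning subgraph with the edges `X`. `SPall r E`: `E` can be reduced to the empty set by
deleting loops, coloops and components which consist of two parallel elements, deleting one of two
parallel elements, and contracting one of two elements in series: series-parallel graphs (arborescent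
diagrams).

Assumptions: `Γ` is series-parallel; no edge outside `B` is a loop, no two edges outside `B` are parallel;
`Γ` remains connected when one or two edges of `B` are removed (no twist region is nugatory, no two can be
merged by flypes); every twist region has at least `202 k ^ 2` crossings, of any sign.

`Separated d X Y`: some integer Vassiliev invariant of order at most `d` takes different values on the
diagrams `X` and `Y` (`Dia`). `ordV k 0 s = 2 ^ k * (8 * k + 1) + 4 * k + 4 * s` does not depend on the
twist numbers.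

Proof: the Jones polynomial of the diagram has a value of modulus at least `(7 / 4) ^ (k / 2)` on the unit
circle (see `MP_42db45_gt.ArborescentTwists`); a diagram with `c` crossings has values at most `2 ^ c` there.
Different polynomials are distinguished by a moment of bounded order, since the number of the exponents
of `(-A^2-A^{-2})^k f` is bounded (starting library).
-/

set_option autoImplicit false

namespace Pool.Agent.Results.MP_5f6b43_gt.ArborescentOrder

open Finset LaurentPolynomial Pool.Agent.H891R2.Jones Pool.Agent.H891R2.MT Pool.Agent.H891R2.SI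
  Pool.Agent.H832R3.VJ
open Pool.Agent.Q99.ET

theorem result {k : ℕ} (hk : 0 < k) (Γ : Ribbon k) (B : Finset (Fin k)) (hΓ : Γ.Planar)
    -- the graph is series-parallel
    (hsp : SPall (gr Γ) Finset.univ)
    -- no loops and no parallel edges outside `B`
    (hout : ∀ e ∉ B, ∀ f ∉ B, gr Γ {e, f} = ({e, f} : Finset (Fin k)).card)
    -- no bridges and no two-edge cuts in `B`
    (hin : ∀ e ∈ B, ∀ f ∈ B, Γ.comps {e, f}ᶜ = 1)
    -- many crossings of any sign in every box
    (n : Fin k → ℤ) (hn : ∀ e, (202 * k ^ 2 : ℤ) ≤ |n e|) 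
    (D : Diagram ((mix Γ B).P ⊕ Ribbon.Pt n)) (hD : Orients D ((mix Γ B).fill n)) (_ : D.IsClosed) :
    -- (1) separated from the unknot
    Separated (2 ^ k * (8 * k + 1) + 4 * k) ⟨_, inferInstance, D⟩ unknot ∧
    -- (2) separated from all diagrams with at most `2 k / 5` crossings
    (∀ (s : ℕ) (Y : Dia), 5 * Y.D.crossings.length ≤ 2 * k → SpanAtMost s Y.D → 
      Separated (2 ^ k * (8 * k + 1) + 4 * k + 4 * s) ⟨_, inferInstance, D⟩ Y) ∧
    -- (3) separated from all links with the Jones polynomial of an unlink
    (∀ (c : ℕ) (Y : Dia), Y.D.fPoly = (-T 2 - T (-2)) ^ c → 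
      Separated (2 ^ k * (8 * k + 1) + 4 * k + 4 * c) ⟨_, inferInstance, D⟩ Y) := by
  have hA : Arb Γ B := ⟨hΓ, hsp, hout, hin⟩
  have hn' : ∀ e, 64 * Real.pi * (k : ℝ) ^ 2 ≤ |(n e : ℝ)| := by
    intro e
    have h1 : ((202 * k ^ 2 : ℤ) : ℝ) ≤ ((|n e| : ℤ) : ℝ) := Int.cast_le.2 (hn e)
    push_cast at h1
    refine le_trans ?_ h1
    have h2 := Real.pi_lt_d2
    exact mul_le_mul_of_nonneg_right (by linarith) (by positivity)
  obtain ⟨ε, h1, h2⟩ := hA.main hk n hn' D hD
  have h7 : (1 : ℝ) < (7 / 4) ^ k := one_lt_pow₀ (by norm_num) hk.ne'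
  have hO : (mix Γ B).Connected := mix_connected Γ B hΓ.1
  have i1 : Nonempty ((mix Γ B).P ⊕ Ribbon.Pt n) := ⟨.inl ((mix Γ B).corner ⟨0, hk⟩ false false)⟩
  have hb : D.bracket = ((mix Γ B).fill n).std.bracket := 
    Pool.Agent.H891R2.MT.T6.bracket_orients D ((mix Γ B).fill n) hD
  have hord : ∀ s, 2 ^ k * (8 * k + 1) + 4 * k + 4 * s = ordV k (mix Γ B).crossings.length s := by
    intro s
    show _ = 2 ^ k * (6 * (([] : List ((mix Γ B).P × (mix Γ B).P × (mix Γ B).P × (mix Γ B).P)).length) + 
      8 * k + 1) + 4 * k + 4 * s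
    simp
  have few : ∀ (s : ℕ) (Y : Dia), 5 * Y.D.crossings.length ≤ 2 * k → SpanAtMost s Y.D → 
      Separated (2 ^ k * (8 * k + 1) + 4 * k + 4 * s) ⟨_, inferInstance, D⟩ Y := by
    intro s Y hY hs
    rw [hord]
    refine sep_gen hk (mix Γ B) hO n s _ Y hb hs fun he => ?_
    have h3 := norm_ev_le Y.D ε h1
    have h4 := two_pow_lt k Y.D.crossings.length hk hY
    have he' : D.fPoly = Y.D.fPoly := he
    rw [he'] at h2
    have h5 : ‖ev (pt ε) Y.D.fPoly‖ ^ 2 ≤ (2 ^ Y.D.crossings.length) ^ 2 := 
      pow_le_pow_left₀ (norm_nonneg _) h3 2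
    linarith
  have unl : ∀ (c : ℕ) (Y : Dia), Y.D.fPoly = (-T 2 - T (-2)) ^ c → 
      Separated (2 ^ k * (8 * k + 1) + 4 * k + 4 * c) ⟨_, inferInstance, D⟩ Y := by
    intro c Y hY
    rw [hord]
    refine sep_gen hk (mix Γ B) hO n c _ Y hb ?_ fun he => ?_
    · refine ⟨-(c * 2), fun j hj => ?_⟩
      rw [hY] at hj
      have h3 := (T4b.SIn_d.pow c) j hj
      constructor
      · linarith [h3.1]
      · linarith [h3.2]
    · have he' : D.fPoly = Y.D.fPoly := he
      rw [he', hY, map_pow, ev_pt_d, norm_pow] at h2
      have h3 : (‖dd ε‖ ^ c) ^ 2 ≤ 1 := 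
        pow_le_one₀ (by positivity) (pow_le_one₀ (norm_nonneg _) h1)
      linarith
  refine ⟨?_, few, unl⟩
  have h3 := unl 0 unknot (by rw [fPoly_unknot, pow_zero])
  simpa using h3

end Pool.Agent.Results.MP_5f6b43_gt.ArborescentOrder
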