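import Pool.Agent.Q99.SML8.Contact

/-!
# The contact order of the Jones polynomials of powers of braids at `A = 1`

Diagrams (starting library `Pool.Agent.H891R2.Jones.Diagram`): `Diagram P` (oriented link diagrams,
planar or not), `Diagram.IsClosed`, `Diagram.fPoly` (the normalised bracket `(-A^{-3})^{w(D)} ⟨D⟩`),
`Outer m` (the part of an oriented diagram outside a box through which `m` strands run, with arbitrary
directions), `Outer.close` (fills the rest of the box with vertical strands).

Vassiliev invariants (starting library `Pool.Agent.H832R3.VJ.Defs`): `Dia` (an oriented diagram with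
the finite set of its marked points), `Separated d X Y` (some integer valued Vassiliev invariant of
oriented links of order at most `d` has different values on `X` and `Y`), `unknot`.

`Pool.Agent.Q99.SML.Defs`: `Word` (words in the letters `σ_j^{±1}`), `wperm m w` (the permutation of `w`;
`w` is pure if it is `1`), `family O w u n` (the product
`w_0^{n_0} u_0 w_1^{n_1} u_1 ⋯ w_{k-1}^{n_{k-1}} u_{k-1}` is drawn in the box of `O`).
-/

set_option autoImplicit false

namespace Pool.Agent.Results.MP_5f6b43_gt.ContactOrder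

open Finset LaurentPolynomial Pool.Agent.H891R2.Jones Pool.Agent.H832R3.VJ Q99.SML

/-- the diagram as an element of `Dia` -/
def dia {m : ℕ} (O : Outer m) : Dia := ⟨O.P, inferInstance, O.close⟩

/-- the contact order of two Laurent polynomials at `A = 1`: the largest `d` such that `(A - 1)^d`
divides the difference, `⊤` if they are equal -/
noncomputable def contact (F G : ℤ[T;T⁻¹]) : ℕ∞ := emultiplicity (T 1 - 1) (F - G)

/-- Let `O`, `O'` be outsides of boxes with `m` and `m'` strands of oriented diagrams, let `w_j`, `u_j`,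
`w'_j`, `u'_j`, `j < k`, be braid words, let `P` be such that all `w_j^P`, `w'_j^P` are pure, let
`s ∈ ℤ^k`, and for `q ∈ ℤ^k` let `K(q)`, `K'(q)` be the diagrams obtained by drawing the products for
the exponents `s + P q` in the boxes.

* If `O` is the outside of a closed diagram and the product for `q = 0` preserves the directions of
  the strands, then all `K(q)` are closed oriented diagrams.
* Diagrams whose normalised brackets have contact order `n < ∞` are separated by Vassiliev invariants
  of order at most `n`.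
* **One link.** For every link `X` (an arbitrary diagram, e.g. of the unknot) there is `δ` (`δ = ∞` if
  and only if all `K(q)` have the same bracket as `X`) such that the contact order of the brackets of
  `K(q)` and `X` is at least `δ` for all `q`, and for all finite sets `A_0, …, A_{k-1}` of integers it is
  **equal** to `δ` for all but at most `C(m, ⌊m / 2⌋) ∑_j ∏_{l ≠ j} |A_l|` of the `q ∈ ∏ A_j` (for `k = 1`:
  all but at most `C(m, ⌊m / 2⌋)` integers `q`).
* Hence if one member `K(q₀)` has contact order `d < ∞` with `X`, then in each box at most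
  `C(m, ⌊m / 2⌋) ∑_j ∏_{l ≠ j} |A_l|` members are not separated from `X` by Vassiliev invariants of order
  at most `d`.
* **Two families.** The same for the contact order of the brackets of `K(q)` and `K'(q)`, with
  `C(m, ⌊m / 2⌋) + C(m', ⌊m' / 2⌋) - 1` instead of `C(m, ⌊m / 2⌋)`. -/
theorem result {m m' k : ℕ} (hm : 0 < m) (hm' : 0 < m') (O : Outer m) (O' : Outer m')
    (w u w' u' : Fin k → Word) (P : ℕ) (hP : ∀ j, wperm m (w j) ^ P = 1)
    (hP' : ∀ j, wperm m' (w' j) ^ P = 1) (s : Fin k → ℤ) :
    (O.close.IsClosed → (family O w u s).up = O.up →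
      ∀ q : Fin k → ℤ, (family O w u (s + (P : ℤ) • q)).close.IsClosed) ∧
    (∀ (X Y : Dia) (n : ℕ), contact X.D.fPoly Y.D.fPoly = n → Separated n X Y) ∧
    (∀ X : Dia,
      (∃ δ : ℕ∞,
        (δ = ⊤ ↔ ∀ q, (family O w u (s + (P : ℤ) • q)).close.fPoly = X.D.fPoly) ∧
        (∀ q, δ ≤ contact (family O w u (s + (P : ℤ) • q)).close.fPoly X.D.fPoly) ∧
        ∀ A : Fin k → Finset ℤ, {q : Fin k → ℤ | (∀ j, q j ∈ A j) ∧
            contact (family O w u (s + (P : ℤ) • q)).close.fPoly X.D.fPoly ≠ δ}.ncard ≤
          m.choose (m / 2) * ∑ j, ∏ l ∈ univ.erase j, #(A l)) ∧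
      ∀ (q₀ : Fin k → ℤ) (d : ℕ),
        contact (family O w u (s + (P : ℤ) • q₀)).close.fPoly X.D.fPoly = d →
        ∀ A : Fin k → Finset ℤ, {q : Fin k → ℤ | (∀ j, q j ∈ A j) ∧
            ¬ Separated d (dia (family O w u (s + (P : ℤ) • q))) X}.ncard ≤
          m.choose (m / 2) * ∑ j, ∏ l ∈ univ.erase j, #(A l)) ∧
    (∃ δ : ℕ∞,
      (δ = ⊤ ↔ ∀ q, (family O w u (s + (P : ℤ) • q)).close.fPoly =
        (family O' w' u' (s + (P : ℤ) • q)).close.fPoly) ∧
      (∀ q, δ ≤ contact (family O w u (s + (P : ℤ) • q)).close.fPoly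
        (family O' w' u' (s + (P : ℤ) • q)).close.fPoly) ∧
      ∀ A : Fin k → Finset ℤ, {q : Fin k → ℤ | (∀ j, q j ∈ A j) ∧
          contact (family O w u (s + (P : ℤ) • q)).close.fPoly
            (family O' w' u' (s + (P : ℤ) • q)).close.fPoly ≠ δ}.ncard ≤
        (m.choose (m / 2) + m'.choose (m' / 2) - 1) * ∑ j, ∏ l ∈ univ.erase j, #(A l)) := by
  classical
  refine ⟨fun hO hup q => Q99.SML4.family_closed O w u P hP s hO hup q,
    fun X Y n h => Q99.SML8.separated_of_contact X Y n h, fun X => ?_, ?_⟩
  · obtain ⟨δ, h1, h2, h3⟩ := Q99.SML8.exists_delta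
      (fun q => (family O w u (s + (P : ℤ) • q)).close.fPoly - X.D.fPoly) _
      (fun d => Q99.SML8.count_const hm O w u P hP s X.D.fPoly 0 Q99.SML8.prime_zero.1
        Q99.SML8.prime_zero.2 _ (Q99.SML8.reg_xpow d))
    simp only [sub_eq_zero] at h1
    refine ⟨⟨δ, h1, h2, h3⟩, fun q₀ d hd A => ?_⟩
    have hδd : δ ≤ d := (h2 q₀).trans (le_of_eq hd)
    refine le_trans (Set.ncard_le_ncard ?_ ?_) (h3 A)
    · rintro q ⟨hq1, hq2⟩
      refine ⟨hq1, fun h4 => hq2 ?_⟩
      obtain ⟨n, hn⟩ := ENat.ne_top_iff_exists.1 (ne_top_of_le_ne_top (ENat.natCast_ne_top d) hδd)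
      rw [← hn] at h4 hδd
      obtain ⟨n', h5, v, h6⟩ := Q99.SML8.separated_of_contact
        (dia (family O w u (s + (P : ℤ) • q))) X n h4
      exact ⟨n', h5.trans (by exact_mod_cast hδd), v, h6⟩
    · apply (Fintype.piFinset A).finite_toSet.subset
      intro q hq
      rw [Finset.mem_coe, Fintype.mem_piFinset]
      exact hq.1
  · obtain ⟨δ, h1, h2, h3⟩ := Q99.SML8.exists_delta
      (fun q => (family O w u (s + (P : ℤ) • q)).close.fPoly -
        (family O' w' u' (s + (P : ℤ) • q)).close.fPoly) _
      (fun d => Q99.SML8.count_diff hm hm' O O' w u w' u' P hP hP' s 0 Q99.SML8.prime_zero.1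
        Q99.SML8.prime_zero.2 _ (Q99.SML8.reg_xpow d))
    simp only [sub_eq_zero] at h1
    exact ⟨δ, h1, h2, h3⟩

end Pool.Agent.Results.MP_5f6b43_gt.ContactOrder
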