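import Pool.Agent.Q179.HS.Fixed
import Pool.Agent.Q179.HS.Planar

/-!
# Which crossing choices on a shadow can have the Kontsevich invariant of the unknot?

Definitions of the starting library: `GaussWord N` (the order in which the crossings of a knot diagram with
`N` crossings are passed; planarity is not required), `Crosses G i j` (the chords of the crossings `i` and `j`
cross), `fPoly G w` (the normalised Kauffman bracket of the diagram with shadow `G` and signs `w`), all in
`Pool.Agent.H832R2.JR.Defs`; `dia G e w` (`Pool.Agent.W642.RV.Defs`: the knot diagram with Gauss word `G`, local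
pictures `e` of the crossings and signs `w` of the crossings); `Dia`, `Separated d X Y`
(`Pool.Agent.H832R3.VJ.Defs`: some integer valued Vassiliev invariant of oriented links of order at most `d` has
different values on `X` and `Y`; for knots this implies that the degree `≤ d` parts of the Kontsevich invariants
are different).  `PlaneCriterion G` (in `Pool.Agent.Q179.HS.Planar`): the
combinatorial criterion for the Gauss words of closed curves in the plane.

The starting results on random crossings (`MP_31fd3b_gt.RandomStackings`, `MP_7bc610_gt.RandomCrossings`) need many
disjoint pairs, or many classes, of crossing chords; here the shadows are arbitrary.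
-/

set_option autoImplicit false

namespace Pool.Agent.Results.MP_5f6b43_gt.CrossingChoices

open LaurentPolynomial Pool.Agent.H832R2.JR Pool.Agent.H832R3.VJ Pool.Agent.W642.RV Pool.Agent.Q179.HS

/-- the crossing `i` is changed -/
def change {N : ℕ} (i : Fin N) (w : Fin N → Bool) : Fin N → Bool := Function.update w i (!w i)

/-- Let `Y` be any diagram, for instance a diagram of the unknot.
* Let `i`, `j` be two crossings of a knot diagram whose chords cross. One of the four diagrams obtained by
  changing none, one or both of them is separated from `Y` by Vassiliev invariants of order at most `2` (has not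
  the Kontsevich invariant of `Y` in degree at most `2`).
* If two chords of a shadow with `N` crossings cross, then at most `3/4` of the `2^N` choices of the crossings give a
  diagram which is not separated from `Y` by these invariants.
* If `n ≥ 1` of the chords cross some other chord (`n = N` for shadows without nugatory crossings), then this
  proportion is at most `1/2 + 8 n^(-1/4)`.
* There is a shadow with three crossings, satisfying the criterion for Gauss words of plane curves, every chord
  crossing another one, for which exactly `6 = 3/4 · 2^3` choices give the normalised bracket `1` of the unknot.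
* For every `n` there is a shadow with `n + 2` crossings, for odd `n` satisfying the criterion for Gauss words of
  plane curves, every chord crossing another one, for which at least half of the choices give the normalised
  bracket `1` of the unknot. -/
theorem result :
    (∀ (N : ℕ) (G : GaussWord N) (e w : Fin N → Bool) (i j : Fin N) (Y : Dia), Crosses G i j →
      Separated 2 (dia G e w) Y ∨ Separated 2 (dia G e (change i w)) Y ∨
      Separated 2 (dia G e (change j w)) Y ∨ Separated 2 (dia G e (change i (change j w))) Y) ∧
    (∀ (N : ℕ) (G : GaussWord N) (e : Fin N → Bool) (Y : Dia), (∃ i j, Crosses G i j) →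
      4 * Nat.card {w : Fin N → Bool // ¬ Separated 2 (dia G e w) Y} ≤ 3 * 2 ^ N) ∧
    (∀ (N : ℕ) (G : GaussWord N) (e : Fin N → Bool) (Y : Dia) (n : ℕ), 0 < n →
      n ≤ Nat.card {i : Fin N // ∃ j, Crosses G i j} →
      (Nat.card {w : Fin N → Bool // ¬ Separated 2 (dia G e w) Y} : ℝ) ≤
        (1 / 2 + 8 * (n : ℝ) ^ (-(1 / 4 : ℝ))) * 2 ^ N) ∧
    (∃ G : GaussWord 3, PlaneCriterion G ∧ (∀ i, ∃ j, Crosses G i j) ∧
      Nat.card {w : Fin 3 → Bool // fPoly G w = 1} = 6) ∧
    (∀ n : ℕ, ∃ G : GaussWord (n + 2), (Odd n → PlaneCriterion G) ∧ (∀ i, ∃ j, Crosses G i j) ∧
      2 ^ (n + 1) ≤ Nat.card {w : Fin (n + 2) → Bool // fPoly G w = 1}) :=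
  ⟨fun _ G e w i j Y h => fixed_square G e Y i j h w,
    fun _ G e Y h => fixed_three G e Y h,
    fun _ G e Y n hn0 hn => fixed_half G e Y n hn0 hn,
    ⟨twWord 1, tw_plane 1 (by decide), tw_all 1, trefoil⟩,
    fun n => ⟨twWord n, tw_plane n, tw_all n, tw_unknots n⟩⟩

end Pool.Agent.Results.MP_5f6b43_gt.CrossingChoices
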