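import Pool.Agent.Q99.ET.Vas

/-!
# Vassiliev invariants of bounded order detect highly twisted links with arbitrary signs

`O : Sites k` is a link diagram (planar or not) with `k` open boxes and `c = O.crossings.length` crossings
outside them; `O.fill n` is the diagram in which the box `e` is filled with a row of `|n e|` crossings of
the kind given by the sign of `n e` (two vertical strands twisted around each other); `O.cut`: all boxes
are cut (a cap and a cup without crossings). `pcs O R` is the number of connected pieces of the diagram in
which exactly the boxes of `R` are cut.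

`Good O J`: the diagram is connected and closed, the connected pieces of `O.cut` have nonzero
determinants (the bracket of `O.cut` is not divisible by `(-A^2-A^{-2})^q` for the number `q` of its
pieces), the diagram remains connected when any two boxes of `J` are cut, and the boxes outside `J` join
the pieces of `O.cut` without cycles (no condition for `J = univ`).

`cutRank O R = |R| + 1 - pcs O R` is the rank function of a matroid. `SPred r J`: `J` can be reduced to the
empty set by deleting coloops, deleting one of two parallel elements and contracting one of two elements
in series, that is, the matroid is series-parallel.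

`SpanAtMost s D`: the exponents of the normalised bracket of `D` lie in an interval of length `4 s`, that
is, the span of the Jones polynomial is at most `s`. `ordV k c s = 2^k (6 c + 8 k + 1) + 4 k + 4 s`.

Vassiliev invariants: `Pool.Agent.H832R3.VJ.Defs` (`Dia`: an oriented diagram with the finite set of
its marked points; `Separated d X Y`: some integer valued Vassiliev invariant of oriented links of order
at most `d` has different values on `X` and `Y`; `unknot`).

Proof: if a link of the family has the same normalised bracket as `Y`, then the bracket has small span, so
it stays the same (up to units) when the twist numbers are changed along any vector `y` which satisfies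
the near relations of `n` (rigidity, starting library), and in the limit `A → exp(π i/4)` the state sum
becomes a nonzero multiple of the generating function `∑ ∏ (z ^ y e - 1)` of the sets of full rank, which
is not zero for some `z` on the unit circle. Different brackets are distinguished by a moment of bounded
order, since the number of the exponents of `(-A^2-A^{-2})^k f` is bounded (starting library).
-/

set_option autoImplicit false

namespace Pool.Agent.Results.MP_5f6b43_gt.HighlyTwistedOrder

open Finset LaurentPolynomial Pool.Agent.H891R2.Jones Pool.Agent.H891R2.MT Pool.Agent.H891R2.SI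
  Pool.Agent.H832R3.VJ
open Pool.Agent.Q99.ET

theorem result {k : ℕ} (O : Sites k) (J : Finset (Fin k)) (hO : Good O J) (s : ℕ) (n : Fin k → ℤ) 
    (D : Diagram (O.P ⊕ Ribbon.Pt n)) (hD : Orients D (O.fill n)) (_ : D.IsClosed) :
    -- (1) many crossings of any sign in the boxes of `J`, at most `B0` crossings in the others
    (∀ B0 : ℕ, 
      (∀ e ∈ J, (2 * (2 * k + 1) ^ (k - 1) * (2 * O.crossings.length + 3 * k + s + B0) : ℤ) ≤ |n e|) → 
      (∀ e ∉ J, |n e| ≤ B0) →
      -- (1a) if the matroid is series-parallel, the link is separated from all links whose Jones polynomial
      -- has span at most `s`, and from the unknot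
      (SPred (cutRank O) J → 
        (∀ Y : Dia, SpanAtMost s Y.D → 
          Separated (ordV k O.crossings.length s) ⟨_, inferInstance, D⟩ Y) ∧ 
        Separated (ordV k O.crossings.length 0) ⟨_, inferInstance, D⟩ unknot) ∧
      -- (1b) for all matroids: this is so, unless the generating function of the sets of full rank vanishes
      -- identically in `z` at `x e = z ^ y e` for some `y` which is not zero exactly on `J` and satisfies
      -- the near relations of `n`
      ((∀ Y : Dia, SpanAtMost s Y.D → 
          Separated (ordV k O.crossings.length s) ⟨_, inferInstance, D⟩ Y) ∨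
        ∃ y : Fin k → ℤ, (∀ e, y e ≠ 0 ↔ e ∈ J) ∧ 
          (∀ S S' : Finset (Fin k), 
            |∑ e ∈ S, n e - ∑ e ∈ S', n e| ≤ 2 * O.crossings.length + 3 * k + s → 
              ∑ e ∈ S, y e = ∑ e ∈ S', y e) ∧
          ∀ z : ℂ, z ≠ 0 → ∑ R ∈ J.powerset, 
            (if cutRank O R = cutRank O J then ∏ e ∈ R, (z ^ y e - 1) else 0) = 0)) ∧
    -- (2) for all matroids: twist numbers near multiples of one large number, odd multiples exactly on `J`
    (∀ (m B0 : ℕ) (j : Fin k → ℤ), B0 * k + (2 * O.crossings.length + 3 * k + s) < m → 
        (∀ e, |n e - m * j e| ≤ B0) → (∀ e, Odd (j e) ↔ e ∈ J) → 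
      (∀ Y : Dia, SpanAtMost s Y.D → 
        Separated (ordV k O.crossings.length s) ⟨_, inferInstance, D⟩ Y) ∧ 
      Separated (ordV k O.crossings.length 0) ⟨_, inferInstance, D⟩ unknot) := by
  have hun : ∀ t : ℕ, SpanAtMost t unknot.D := by
    intro t
    refine ⟨0, fun j hj => ?_⟩
    rw [fPoly_unknot] at hj
    have := T4b.SIn.one j hj
    constructor
    · linarith [this.1]
    · have h1 : (0 : ℤ) ≤ t := by positivity
      linarith [this.2]
  have key : ¬ SpanAtMost s D → 
      (∀ Y : Dia, SpanAtMost s Y.D → 
        Separated (ordV k O.crossings.length s) ⟨_, inferInstance, D⟩ Y) ∧ 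
      Separated (ordV k O.crossings.length 0) ⟨_, inferInstance, D⟩ unknot := by
    intro h
    have h0 : ¬ SpanAtMost 0 D := by
      rintro ⟨lo, hlo⟩
      apply h
      refine ⟨lo, fun j hj => ⟨(hlo j hj).1, ?_⟩⟩
      have h1 : (0 : ℤ) ≤ s := by positivity
      have h2 := (hlo j hj).2
      push_cast at h2
      linarith
    exact ⟨fun Y hY => sep_of_span hO.pos O hO.conn n s D hD h Y hY, 
      sep_of_span hO.pos O hO.conn n 0 D hD h0 unknot (hun 0)⟩
  refine ⟨fun B0 hn hB => ⟨fun h => key (hO.sp h s B0 n hn hB D hD), ?_⟩, 
    fun m B0 j hm hn hj => key (hO.odd_multiples s B0 m j n hm hn hj D hD)⟩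
  by_cases h : SpanAtMost s D
  · exact Or.inr (hO.obstruction s B0 n hn hB D hD h)
  · exact Or.inl (key h).1

end Pool.Agent.Results.MP_5f6b43_gt.HighlyTwistedOrder
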